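import Mathlib

set_option autoImplicit false

/-!
# The Recht-Ré norm inequality for matrix products is false (already for products of length 4)

For positive semidefinite `A_1, …, A_n` let `W_m` and `D_m` be the averages of the spectral norms
`‖A_{j_1} ⋯ A_{j_m}‖` over all index tuples and over the tuples of pairwise distinct indices.
The question is whether `W_m ≥ D_m` always holds (it does for `m ≤ 3`).  We show that it fails for
`m = 4` and every `n ≥ 166`, even for real symmetric orthogonal projections.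

Construction.  Take the unit vectors `u_0 = e_1`, `u_1 = (4/5) e_1 + (3/5) e_2`,
`u_2 = (3/5) e_2 + (4/5) e_3`, `u_3 = e_3` of `ℝ³`; their Gram matrix is tridiagonal with
off-diagonal entries `4/5, 9/25, 4/5`.  For every injection `σ : {0,1,2,3} → {1,…,n}` take a block
`ℝ³` on which `A_{σ k}` is the projection onto the line of `u_k` and the other `A_i` vanish, and let
`A_i` be the direct sum over all `σ`.  The norm of a product is the maximum over the blocks of a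
product of Gram entries.  It equals `(4/5)(9/25)(4/5) = 144/625` for distinct indices; for tuples
with exactly one coincidence it is at most `36/125` when the two equal indices are neighbours,
at most `144/625` when they are at distance two, and it is `0` when they are the first and the
last one (the path has no triangle).  Since `3 · 36/125 + 2 · 144/625 < 6 · 144/625`, the
with-replacement average is smaller once `n` is large.
-/

open scoped Matrix.Norms.L2Operator ComplexOrder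
open Matrix

namespace Pool.Agent.Results.MP_6169a9_an.NormAMGMFailsForFour

/-- The ordered product `A_{j 0} A_{j 1} ⋯ A_{j (m-1)}`. -/
noncomputable def word {d n m : ℕ} (A : Fin n → Matrix (Fin d) (Fin d) ℂ)
    (j : Fin m → Fin n) : Matrix (Fin d) (Fin d) ℂ :=
  (List.ofFn fun k => A (j k)).prod

/-- The with-replacement average
`W_m = n^{-m} ∑_{j_1,…,j_m} ‖A_{j_1} ⋯ A_{j_m}‖` (spectral norm). -/
noncomputable def W {d n : ℕ} (m : ℕ) (A : Fin n → Matrix (Fin d) (Fin d) ℂ) : ℝ :=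
  (∑ j : Fin m → Fin n, ‖word A j‖) / (n : ℝ) ^ m

/-- The without-replacement average
`D_m = ((n-m)!/n!) ∑_{j_1,…,j_m pairwise distinct} ‖A_{j_1} ⋯ A_{j_m}‖` (spectral norm). -/
noncomputable def D {d n : ℕ} (m : ℕ) (A : Fin n → Matrix (Fin d) (Fin d) ℂ) : ℝ :=
  ((n - m).factorial : ℝ) / (n.factorial : ℝ) *
    ∑ j : Fin m → Fin n with Function.Injective j, ‖word A j‖

/-! ### Norm estimates -/

lemma norm_le_of_forall {p q : Type} [Fintype p] [Fintype q] [DecidableEq q]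
    (M : Matrix p q ℂ) (C : ℝ) (hC : 0 ≤ C)
    (h : ∀ v : q → ℂ, ∑ i, ‖(M *ᵥ v) i‖ ^ 2 ≤ C ^ 2 * ∑ k, ‖v k‖ ^ 2) : ‖M‖ ≤ C := by
  rw [l2_opNorm_def]
  refine ContinuousLinearMap.opNorm_le_bound _ hC fun x => ?_
  rw [← sq_le_sq₀ (norm_nonneg _) (by positivity), mul_pow, EuclideanSpace.norm_sq_eq,
    EuclideanSpace.norm_sq_eq]
  exact h x

lemma norm_entry_le {p q : Type} [Fintype p] [Fintype q] [DecidableEq q]
    (M : Matrix p q ℂ) (i : p) (k : q) : ‖M i k‖ ≤ ‖M‖ := by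
  have h := l2_opNorm_mulVec M (EuclideanSpace.single k (1 : ℂ))
  rw [PiLp.norm_single, norm_one, mul_one] at h
  refine le_trans ?_ h
  have h2 := PiLp.norm_apply_le ((EuclideanSpace.equiv p ℂ).symm <| M *ᵥ (EuclideanSpace.single k (1 : ℂ))) i
  refine le_trans (le_of_eq ?_) h2
  simp

/-! ### The four vectors -/

/-- The four unit vectors `e₁`, `(4/5) e₁ + (3/5) e₂`, `(3/5) e₂ + (4/5) e₃`, `e₃`. -/
noncomputable def u : Fin 4 → Fin 3 → ℂ :=
  ![![1, 0, 0], ![4/5, 3/5, 0], ![0, 3/5, 4/5], ![0, 0, 1]]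

/-- `25` times the Gram matrix of the four vectors. -/
def g : Fin 4 → Fin 4 → ℕ :=
  ![![25, 20, 0, 0], ![20, 25, 9, 0], ![0, 9, 25, 20], ![0, 0, 20, 25]]

lemma u_dot (i k : Fin 4) : u i ⬝ᵥ u k = (g i k : ℂ) / 25 := by
  fin_cases i <;> fin_cases k <;> simp [u, g, dotProduct, Fin.sum_univ_three] <;> norm_num

variable {n : ℕ}

/-- The vector attached to the index `i` in the block of `σ`. -/
noncomputable def w (σ : Fin 4 ↪ Fin n) (i : Fin n) : Fin 3 → ℂ :=
  ∑ k : Fin 4, if σ k = i then u k else 0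

lemma w_apply_self (σ : Fin 4 ↪ Fin n) (k : Fin 4) : w σ (σ k) = u k := by
  unfold w
  rw [Finset.sum_eq_single k]
  · simp
  · intro b _ hb
    rw [if_neg]
    intro h
    exact hb (σ.injective h)
  · simp

lemma w_of_notMem (σ : Fin 4 ↪ Fin n) (i : Fin n) (h : ∀ k, σ k ≠ i) : w σ i = 0 := by
  unfold w
  exact Finset.sum_eq_zero fun k _ => by rw [if_neg (h k)]

lemma w_cases (σ : Fin 4 ↪ Fin n) (i : Fin n) :
    w σ i = 0 ∨ ∃ k, σ k = i ∧ w σ i = u k := by
  by_cases h : ∃ k, σ k = i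
  · obtain ⟨k, rfl⟩ := h
    exact Or.inr ⟨k, rfl, w_apply_self σ k⟩
  · push Not at h
    exact Or.inl (w_of_notMem σ i h)

lemma star_u (k : Fin 4) : star (u k) = u k := by
  ext r
  fin_cases k <;> fin_cases r <;> simp [u]

lemma star_w (σ : Fin 4 ↪ Fin n) (i : Fin n) : star (w σ i) = w σ i := by
  rcases w_cases σ i with h | ⟨k, -, h⟩
  · rw [h, star_zero]
  · rw [h, star_u]

lemma sum_norm_sq_u (k : Fin 4) : ∑ r, ‖u k r‖ ^ 2 = 1 := by
  fin_cases k <;> simp [u, Fin.sum_univ_three] <;> norm_num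

lemma sum_norm_sq_w (σ : Fin 4 ↪ Fin n) (i : Fin n) : ∑ r, ‖w σ i r‖ ^ 2 ≤ 1 := by
  rcases w_cases σ i with h | ⟨k, -, h⟩
  · rw [h]; simp
  · rw [h, sum_norm_sq_u]

/-- The matrices: in the block of `σ : Fin 4 ↪ Fin n` the matrix `A_{σ k}` is the orthogonal
projection onto the line of `u k`, and `A_i` is zero if `i` is not a value of `σ`. -/
noncomputable def bigA {d : ℕ} (e : Fin d ≃ Fin 3 × (Fin 4 ↪ Fin n)) (i : Fin n) :
    Matrix (Fin d) (Fin d) ℂ :=
  (blockDiagonal fun σ : Fin 4 ↪ Fin n => vecMulVec (w σ i) (w σ i)).submatrix e e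

lemma bigA_isHermitian {d : ℕ} (e : Fin d ≃ Fin 3 × (Fin 4 ↪ Fin n)) (i : Fin n) :
    (bigA e i)ᴴ = bigA e i := by
  unfold bigA
  rw [conjTranspose_submatrix, blockDiagonal_conjTranspose]
  congr 2
  ext σ a b
  have h := star_w σ i
  have ha := congrFun h a
  have hb := congrFun h b
  simp only [Pi.star_apply] at ha hb
  simp only [conjTranspose_apply, vecMulVec_apply, star_mul', ha, hb]
  ring

lemma bigA_idem {d : ℕ} (e : Fin d ≃ Fin 3 × (Fin 4 ↪ Fin n)) (i : Fin n) :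
    bigA e i * bigA e i = bigA e i := by
  unfold bigA
  rw [submatrix_mul_equiv, ← blockDiagonal_mul]
  congr 2
  ext1 σ
  rw [vecMulVec_mul_vecMulVec]
  rcases w_cases σ i with h | ⟨k, -, h⟩
  · rw [h]; simp
  · rw [h, u_dot]
    have : (g k k : ℂ) / 25 = 1 := by
      fin_cases k <;> simp [g]
    rw [this, one_smul]

lemma bigA_posSemidef {d : ℕ} (e : Fin d ≃ Fin 3 × (Fin 4 ↪ Fin n)) (i : Fin n) :
    (bigA e i).PosSemidef := by
  have h : bigA e i = (bigA e i)ᴴ * bigA e i := by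
    rw [bigA_isHermitian, bigA_idem]
  rw [h]
  exact posSemidef_conjTranspose_mul_self _

/-- The scalar of the block of `σ` in the product of four of the matrices. -/
noncomputable def coef (σ : Fin 4 ↪ Fin n) (j : Fin 4 → Fin n) : ℂ :=
  (w σ (j 0) ⬝ᵥ w σ (j 1)) * (w σ (j 1) ⬝ᵥ w σ (j 2)) * (w σ (j 2) ⬝ᵥ w σ (j 3))

lemma word_eq {d : ℕ} (e : Fin d ≃ Fin 3 × (Fin 4 ↪ Fin n)) (j : Fin 4 → Fin n) :
    word (bigA e) j = (blockDiagonal fun σ : Fin 4 ↪ Fin n =>
      vecMulVec (w σ (j 0)) (coef σ j • w σ (j 3))).submatrix e e := by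
  unfold word
  simp only [List.ofFn_succ, List.ofFn_zero, List.prod_cons, List.prod_nil, mul_one]
  unfold bigA
  rw [submatrix_mul_equiv, ← blockDiagonal_mul, submatrix_mul_equiv, ← blockDiagonal_mul,
    submatrix_mul_equiv, ← blockDiagonal_mul]
  congr 2
  ext1 σ
  simp only [vecMulVec_mul_vecMulVec, smul_smul, coef]
  rw [mul_assoc]
  rfl

lemma norm_word_le {d : ℕ} (e : Fin d ≃ Fin 3 × (Fin 4 ↪ Fin n)) (j : Fin 4 → Fin n)
    (C : ℝ) (hC : 0 ≤ C) (h : ∀ σ : Fin 4 ↪ Fin n, ‖coef σ j‖ ≤ C) :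
    ‖word (bigA e) j‖ ≤ C := by
  rw [word_eq]
  apply norm_le_of_forall _ _ hC
  intro v
  rw [submatrix_mulVec_equiv]
  simp only [Function.comp_apply]
  have e1 : ∑ i : Fin d, ‖((blockDiagonal fun σ : Fin 4 ↪ Fin n =>
      vecMulVec (w σ (j 0)) (coef σ j • w σ (j 3))) *ᵥ (v ∘ e.symm)) (e i)‖ ^ 2
      = ∑ p : Fin 3 × (Fin 4 ↪ Fin n), ‖((blockDiagonal fun σ : Fin 4 ↪ Fin n =>
      vecMulVec (w σ (j 0)) (coef σ j • w σ (j 3))) *ᵥ (v ∘ e.symm)) p‖ ^ 2 :=
    Equiv.sum_comp e (fun p => ‖((blockDiagonal fun σ : Fin 4 ↪ Fin n =>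
      vecMulVec (w σ (j 0)) (coef σ j • w σ (j 3))) *ᵥ (v ∘ e.symm)) p‖ ^ 2)
  have e2 : ∑ k : Fin d, ‖v k‖ ^ 2 = ∑ p : Fin 3 × (Fin 4 ↪ Fin n), ‖(v ∘ e.symm) p‖ ^ 2 := by
    rw [← Equiv.sum_comp e]
    simp
  rw [e1, e2]
  generalize v ∘ e.symm = y
  rw [Fintype.sum_prod_type_right, Fintype.sum_prod_type_right, Finset.mul_sum]
  apply Finset.sum_le_sum
  intro σ _
  have e3 : ∀ r : Fin 3, ((blockDiagonal fun σ : Fin 4 ↪ Fin n =>
      vecMulVec (w σ (j 0)) (coef σ j • w σ (j 3))) *ᵥ y) (r, σ)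
      = w σ (j 0) r * (coef σ j * ∑ t, w σ (j 3) t * y (t, σ)) := by
    intro r
    simp only [mulVec, dotProduct, blockDiagonal_apply, Fintype.sum_prod_type_right]
    rw [Finset.sum_eq_single σ]
    · simp only [if_true, vecMulVec_apply, Pi.smul_apply, smul_eq_mul, Finset.mul_sum]
      refine Finset.sum_congr rfl fun t _ => ?_
      ring
    · intro τ _ hτ
      refine Finset.sum_eq_zero fun t _ => ?_
      rw [if_neg (fun h => hτ h.symm), zero_mul]
    · simp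
  simp only [e3, norm_mul, mul_pow, ← Finset.sum_mul]
  have e4 : ‖∑ t, w σ (j 3) t * y (t, σ)‖ ^ 2 ≤ ∑ t, ‖y (t, σ)‖ ^ 2 := by
    calc ‖∑ t, w σ (j 3) t * y (t, σ)‖ ^ 2
        ≤ (∑ t, ‖w σ (j 3) t‖ * ‖y (t, σ)‖) ^ 2 := by
          gcongr
          refine (norm_sum_le _ _).trans (le_of_eq ?_)
          simp only [norm_mul]
      _ ≤ (∑ t, ‖w σ (j 3) t‖ ^ 2) * ∑ t, ‖y (t, σ)‖ ^ 2 :=
          Finset.sum_mul_sq_le_sq_mul_sq _ _ _
      _ ≤ 1 * ∑ t, ‖y (t, σ)‖ ^ 2 := by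
          gcongr
          exact sum_norm_sq_w σ (j 3)
      _ = _ := one_mul _
  have e5 : ‖coef σ j‖ ^ 2 ≤ C ^ 2 := by
    gcongr
    exact h σ
  calc (∑ i, ‖w σ (j 0) i‖ ^ 2) * (‖coef σ j‖ ^ 2 * ‖∑ t, w σ (j 3) t * y (t, σ)‖ ^ 2)
      ≤ 1 * (C ^ 2 * ∑ t, ‖y (t, σ)‖ ^ 2) := by
        gcongr
        exact sum_norm_sq_w σ (j 0)
    _ = _ := one_mul _

/-! ### The combinatorial bound -/

/-- Indicator. -/
def ind (p : Prop) [Decidable p] : ℕ := if p then 1 else 0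

/-- Upper bound (times `15625`) for the norm of a product with a repeated index. -/
def B {α : Type} [DecidableEq α] (x0 x1 x2 x3 : α) : ℕ :=
  4500 * (ind (x0 = x1) + ind (x1 = x2) + ind (x2 = x3))
  + 3600 * (ind (x0 = x2) + ind (x1 = x3))
  + 15625 * (ind (x0 = x1 ∧ x1 = x2) + ind (x0 = x1 ∧ x1 = x3) + ind (x0 = x2 ∧ x2 = x3)
      + ind (x1 = x2 ∧ x2 = x3) + ind (x0 = x1 ∧ x2 = x3) + ind (x0 = x2 ∧ x1 = x3)
      + ind (x0 = x3 ∧ x1 = x2))

lemma g_bound_distinct : ∀ k0 k1 k2 k3 : Fin 4,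
    (k0 ≠ k1 ∧ k0 ≠ k2 ∧ k0 ≠ k3 ∧ k1 ≠ k2 ∧ k1 ≠ k3 ∧ k2 ≠ k3) →
    g k0 k1 * g k1 k2 * g k2 k3 ≤ 3600 := by
  decide

lemma g_bound : ∀ k0 k1 k2 k3 : Fin 4,
    (k0 = k1 ∨ k0 = k2 ∨ k0 = k3 ∨ k1 = k2 ∨ k1 = k3 ∨ k2 = k3) →
    g k0 k1 * g k1 k2 * g k2 k3 ≤ B k0 k1 k2 k3 := by
  decide

lemma ind_congr {p q : Prop} [Decidable p] [Decidable q] (h : p ↔ q) : ind p = ind q := by
  unfold ind
  simp [h]

lemma B_map {α β : Type} [DecidableEq α] [DecidableEq β] (σ : α ↪ β) (x0 x1 x2 x3 : α) :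
    B (σ x0) (σ x1) (σ x2) (σ x3) = B x0 x1 x2 x3 := by
  unfold B ind
  simp only [σ.injective.eq_iff]

lemma coef_cases (σ : Fin 4 ↪ Fin n) (j : Fin 4 → Fin n) :
    coef σ j = 0 ∨ ∃ k0 k1 k2 k3 : Fin 4, σ k0 = j 0 ∧ σ k1 = j 1 ∧ σ k2 = j 2 ∧ σ k3 = j 3 ∧
      ‖coef σ j‖ = ((g k0 k1 * g k1 k2 * g k2 k3 : ℕ) : ℝ) / 15625 := by
  unfold coef
  rcases w_cases σ (j 0) with h0 | ⟨k0, e0, h0⟩
  · left; rw [h0]; simp
  rcases w_cases σ (j 1) with h1 | ⟨k1, e1, h1⟩
  · left; rw [h1]; simp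
  rcases w_cases σ (j 2) with h2 | ⟨k2, e2, h2⟩
  · left; rw [h2]; simp
  rcases w_cases σ (j 3) with h3 | ⟨k3, e3, h3⟩
  · left; rw [h3]; simp
  right
  refine ⟨k0, k1, k2, k3, e0, e1, e2, e3, ?_⟩
  rw [h0, h1, h2, h3, u_dot, u_dot, u_dot]
  rw [norm_mul, norm_mul, norm_div, norm_div, norm_div]
  simp only [Complex.norm_natCast, Complex.norm_ofNat]
  push_cast
  ring

lemma coef_le_of_injective (σ : Fin 4 ↪ Fin n) (j : Fin 4 → Fin n)
    (hj : Function.Injective j) : ‖coef σ j‖ ≤ 3600 / 15625 := by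
  rcases coef_cases σ j with h | ⟨k0, k1, k2, k3, e0, e1, e2, e3, h⟩
  · rw [h, norm_zero]; norm_num
  · rw [h]
    have hne : ∀ a b : Fin 4, a ≠ b → ∀ x y : Fin 4, σ x = j a → σ y = j b → x ≠ y := by
      intro a b hab x y hx hy hxy
      exact hab (hj (hx.symm.trans (by rw [hxy, hy])))
    have hb : g k0 k1 * g k1 k2 * g k2 k3 ≤ 3600 :=
      g_bound_distinct k0 k1 k2 k3 ⟨hne 0 1 (by decide) _ _ e0 e1, hne 0 2 (by decide) _ _ e0 e2,
        hne 0 3 (by decide) _ _ e0 e3, hne 1 2 (by decide) _ _ e1 e2,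
        hne 1 3 (by decide) _ _ e1 e3, hne 2 3 (by decide) _ _ e2 e3⟩
    gcongr
    exact_mod_cast hb

lemma coef_le_of_not_injective (σ : Fin 4 ↪ Fin n) (j : Fin 4 → Fin n)
    (hj : ¬ Function.Injective j) :
    ‖coef σ j‖ ≤ (B (j 0) (j 1) (j 2) (j 3) : ℝ) / 15625 := by
  rcases coef_cases σ j with h | ⟨k0, k1, k2, k3, e0, e1, e2, e3, h⟩
  · rw [h, norm_zero]; positivity
  · rw [h, ← e0, ← e1, ← e2, ← e3, B_map]
    have hor : k0 = k1 ∨ k0 = k2 ∨ k0 = k3 ∨ k1 = k2 ∨ k1 = k3 ∨ k2 = k3 := by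
      by_contra hcon
      push Not at hcon
      obtain ⟨h01, h02, h03, h12, h13, h23⟩ := hcon
      apply hj
      intro a b hab
      fin_cases a <;> fin_cases b <;> simp only [Fin.zero_eta, Fin.mk_one, Fin.reduceFinMk] at hab ⊢ <;>
        exfalso <;> (first
          | (rw [← e0, ← e1] at hab; exact h01 (σ.injective hab))
          | (rw [← e1, ← e0] at hab; exact h01 (σ.injective hab).symm)
          | (rw [← e0, ← e2] at hab; exact h02 (σ.injective hab))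
          | (rw [← e2, ← e0] at hab; exact h02 (σ.injective hab).symm)
          | (rw [← e0, ← e3] at hab; exact h03 (σ.injective hab))
          | (rw [← e3, ← e0] at hab; exact h03 (σ.injective hab).symm)
          | (rw [← e1, ← e2] at hab; exact h12 (σ.injective hab))
          | (rw [← e2, ← e1] at hab; exact h12 (σ.injective hab).symm)
          | (rw [← e1, ← e3] at hab; exact h13 (σ.injective hab))
          | (rw [← e3, ← e1] at hab; exact h13 (σ.injective hab).symm)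
          | (rw [← e2, ← e3] at hab; exact h23 (σ.injective hab))
          | (rw [← e3, ← e2] at hab; exact h23 (σ.injective hab).symm))
    have hb := g_bound k0 k1 k2 k3 hor
    gcongr

/-- A product with pairwise distinct indices has norm at least `3600/15625`. -/
lemma le_norm_word {d : ℕ} (e : Fin d ≃ Fin 3 × (Fin 4 ↪ Fin n)) (j : Fin 4 → Fin n)
    (hj : Function.Injective j) : 3600 / 15625 ≤ ‖word (bigA e) j‖ := by
  refine le_trans (le_of_eq ?_) (norm_entry_le (word (bigA e) j) (e.symm (0, ⟨j, hj⟩))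
    (e.symm (2, ⟨j, hj⟩)))
  rw [word_eq]
  simp only [submatrix_apply, Equiv.apply_symm_apply, blockDiagonal_apply, if_true,
    vecMulVec_apply, Pi.smul_apply, smul_eq_mul]
  have h : ∀ k, w (⟨j, hj⟩ : Fin 4 ↪ Fin n) (j k) = u k := fun k =>
    w_apply_self (⟨j, hj⟩ : Fin 4 ↪ Fin n) k
  unfold coef
  rw [h, h, h, h, u_dot, u_dot, u_dot]
  simp [g, u]
  norm_num

/-! ### Counting -/

/-- Quadruples as functions on `Fin 4`. -/
def e4 (α : Type) : (Fin 4 → α) ≃ α × α × α × α where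
  toFun f := (f 0, f 1, f 2, f 3)
  invFun p := ![p.1, p.2.1, p.2.2.1, p.2.2.2]
  left_inv f := by
    ext i
    fin_cases i <;> rfl
  right_inv p := rfl

lemma sum_B (n : ℕ) : ∑ j : Fin 4 → Fin n, B (j 0) (j 1) (j 2) (j 3)
    = 20700 * n ^ 3 + 109375 * n ^ 2 := by
  have h1 : ∑ j : Fin 4 → Fin n, B (j 0) (j 1) (j 2) (j 3)
      = ∑ p : Fin n × Fin n × Fin n × Fin n, B p.1 p.2.1 p.2.2.1 p.2.2.2 :=
    Equiv.sum_comp (e4 (Fin n)) (fun p => B p.1 p.2.1 p.2.2.1 p.2.2.2)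
  rw [h1]
  simp only [Fintype.sum_prod_type]
  simp only [B, ind, Finset.sum_add_distrib, ← Finset.mul_sum]
  simp [ite_and]
  ring

lemma card_injective (n : ℕ) :
    (Finset.univ.filter fun j : Fin 4 → Fin n => Function.Injective j).card
      = n.descFactorial 4 := by
  rw [← Fintype.card_subtype]
  have h : Fintype.card {j : Fin 4 → Fin n // Function.Injective j}
      = Fintype.card (Fin 4 ↪ Fin n) :=
    Fintype.card_congr (Equiv.subtypeInjectiveEquivEmbedding (Fin 4) (Fin n))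
  rw [h, Fintype.card_embedding_eq, Fintype.card_fin, Fintype.card_fin]

lemma descFactorial_four (n : ℕ) (hn : 3 ≤ n) :
    ((n.descFactorial 4 : ℕ) : ℝ) = (n : ℝ) * (n - 1) * (n - 2) * (n - 3) := by
  obtain ⟨t, rfl⟩ := Nat.exists_eq_add_of_le hn
  have h : (3 + t).descFactorial 4 = (3 + t) * (2 + t) * (1 + t) * t := by
    have h1 : 3 + t - 3 = t := by omega
    have h2 : 3 + t - 2 = 1 + t := by omega
    have h3 : 3 + t - 1 = 2 + t := by omega
    simp only [Nat.descFactorial_succ, Nat.descFactorial_zero, h1, h2, h3]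
    simp only [Nat.sub_zero, mul_one]
    ring
  rw [h]
  push_cast
  ring

lemma sum_norm_word_le {d : ℕ} (e : Fin d ≃ Fin 3 × (Fin 4 ↪ Fin n)) :
    ∑ j : Fin 4 → Fin n, ‖word (bigA e) j‖ ≤
      (3600 * (n.descFactorial 4 : ℝ) + (20700 * (n : ℝ) ^ 3 + 109375 * (n : ℝ) ^ 2)) / 15625 := by
  rw [← Finset.sum_filter_add_sum_filter_not Finset.univ
    (fun j : Fin 4 → Fin n => Function.Injective j)]
  have h1 : ∑ j ∈ Finset.univ.filter (fun j : Fin 4 → Fin n => Function.Injective j),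
      ‖word (bigA e) j‖ ≤ (n.descFactorial 4 : ℝ) * (3600 / 15625) := by
    refine (Finset.sum_le_card_nsmul _ _ (3600 / 15625) fun j hj => ?_).trans (le_of_eq ?_)
    · exact norm_word_le e j _ (by norm_num)
        fun σ => coef_le_of_injective σ j (Finset.mem_filter.mp hj).2
    · rw [card_injective, nsmul_eq_mul]
  have h2 : ∑ j ∈ Finset.univ.filter (fun j : Fin 4 → Fin n => ¬ Function.Injective j),
      ‖word (bigA e) j‖ ≤ (20700 * (n : ℝ) ^ 3 + 109375 * (n : ℝ) ^ 2) / 15625 := by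
    calc ∑ j ∈ Finset.univ.filter (fun j : Fin 4 → Fin n => ¬ Function.Injective j),
          ‖word (bigA e) j‖
        ≤ ∑ j ∈ Finset.univ.filter (fun j : Fin 4 → Fin n => ¬ Function.Injective j),
          (B (j 0) (j 1) (j 2) (j 3) : ℝ) / 15625 :=
          Finset.sum_le_sum fun j hj => norm_word_le e j _ (by positivity)
            fun σ => coef_le_of_not_injective σ j (Finset.mem_filter.mp hj).2
      _ ≤ ∑ j : Fin 4 → Fin n, (B (j 0) (j 1) (j 2) (j 3) : ℝ) / 15625 :=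
          Finset.sum_le_sum_of_subset_of_nonneg (Finset.filter_subset _ _)
            fun j _ _ => by positivity
      _ = _ := by
          rw [← Finset.sum_div, ← Nat.cast_sum, sum_B]
          push_cast
          ring
  calc _ ≤ _ := add_le_add h1 h2
    _ = _ := by ring

lemma le_D {d : ℕ} (e : Fin d ≃ Fin 3 × (Fin 4 ↪ Fin n)) (hn : 4 ≤ n) :
    3600 / 15625 ≤ D 4 (bigA e) := by
  unfold D
  have h1 : (n.descFactorial 4 : ℝ) * (3600 / 15625) ≤
      ∑ j ∈ Finset.univ.filter (fun j : Fin 4 → Fin n => Function.Injective j),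
      ‖word (bigA e) j‖ := by
    refine le_trans (le_of_eq ?_) (Finset.card_nsmul_le_sum _ _ (3600 / 15625) fun j hj => ?_)
    · rw [card_injective, nsmul_eq_mul]
    · exact le_norm_word e j (Finset.mem_filter.mp hj).2
  have h2 : ((n - 4).factorial : ℝ) * (n.descFactorial 4 : ℝ) = (n.factorial : ℝ) := by
    exact_mod_cast Nat.factorial_mul_descFactorial hn
  have h3 : (0 : ℝ) < (n.factorial : ℝ) := by exact_mod_cast Nat.factorial_pos n
  calc (3600 / 15625 : ℝ) = ((n - 4).factorial : ℝ) / (n.factorial : ℝ) *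
        ((n.descFactorial 4 : ℝ) * (3600 / 15625)) := by
        rw [div_mul_eq_mul_div, ← mul_assoc, h2]
        field_simp
    _ ≤ _ := by gcongr

lemma W_lt {d : ℕ} (e : Fin d ≃ Fin 3 × (Fin 4 ↪ Fin n)) (hn : 166 ≤ n) :
    W 4 (bigA e) < 3600 / 15625 := by
  unfold W
  have hn' : (166 : ℝ) ≤ n := by exact_mod_cast hn
  rw [div_lt_iff₀ (by positivity)]
  refine lt_of_le_of_lt (sum_norm_word_le e) ?_
  rw [descFactorial_four n (by omega)]
  have h1 : (0 : ℝ) < (n : ℝ) ^ 2 * (900 * n - 148975) := by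
    apply mul_pos (by positivity)
    linarith
  have h2 : (0 : ℝ) ≤ 21600 * (n : ℝ) := by positivity
  nlinarith [h1, h2]

lemma bigA_real {d : ℕ} (e : Fin d ≃ Fin 3 × (Fin 4 ↪ Fin n)) (i : Fin n) (a b : Fin d) :
    (bigA e i a b).im = 0 := by
  rw [← Complex.conj_eq_iff_im]
  unfold bigA
  simp only [submatrix_apply, blockDiagonal_apply, vecMulVec_apply]
  have h : ∀ σ : Fin 4 ↪ Fin n, ∀ r, (starRingEnd ℂ) (w σ i r) = w σ i r := fun σ r =>
    congrFun (star_w σ i) r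
  split_ifs
  · rw [map_mul, h, h]
  · exact map_zero _

/-- **The Recht-Ré norm inequality `W_m ≥ D_m` is false.** -/
theorem result :
    (¬ ∀ d n m : ℕ, 1 ≤ d → 1 ≤ m → m ≤ n →
      ∀ A : Fin n → Matrix (Fin d) (Fin d) ℂ, (∀ i, (A i).PosSemidef) → D m A ≤ W m A) ∧
    (∀ n : ℕ, 166 ≤ n → ∃ d : ℕ, 1 ≤ d ∧ ∃ A : Fin n → Matrix (Fin d) (Fin d) ℂ,
      (∀ i, (A i).PosSemidef ∧ A i * A i = A i ∧ ∀ a b, (A i a b).im = 0) ∧
      W 4 A < D 4 A) := by
  have key : ∀ n : ℕ, 166 ≤ n → ∃ d : ℕ, 1 ≤ d ∧ ∃ A : Fin n → Matrix (Fin d) (Fin d) ℂ,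
      (∀ i, (A i).PosSemidef ∧ A i * A i = A i ∧ ∀ a b, (A i a b).im = 0) ∧
      W 4 A < D 4 A := by
    intro n hn
    have e : Fin (Fintype.card (Fin 3 × (Fin 4 ↪ Fin n))) ≃ Fin 3 × (Fin 4 ↪ Fin n) :=
      (Fintype.equivFin _).symm
    refine ⟨Fintype.card (Fin 3 × (Fin 4 ↪ Fin n)), ?_, bigA e, fun i =>
      ⟨bigA_posSemidef e i, bigA_idem e i, bigA_real e i⟩,
      lt_of_lt_of_le (W_lt e hn) (le_D e (by omega))⟩
    rw [Nat.one_le_iff_ne_zero, ← Nat.pos_iff_ne_zero, Fintype.card_pos_iff]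
    exact ⟨(0, Fin.castLEEmb (by omega))⟩
  refine ⟨fun hall => ?_, key⟩
  obtain ⟨d, hd, A, hA, hlt⟩ := key 166 le_rfl
  exact absurd (hall d 166 4 hd (by norm_num) (by norm_num) A fun i => (hA i).1) (not_le.mpr hlt)

end Pool.Agent.Results.MP_6169a9_an.NormAMGMFailsForFour
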